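import Mathlib.Analysis.Complex.AbsMax
import Mathlib.Analysis.Complex.LocallyUniformLimit

/-!
# LU Ext: limits of functions without zeros off a discrete set

`E n` is holomorphic and has no zeros on the disc of radius `n + 1`, and converges locally uniformly off a closed discrete set to a function without zeros.
By the maximum principle (for `E n` and `1 / E n`) the sequence converges locally uniformly on `ℂ` to an entire function without zeros.
-/

set_option autoImplicit false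

open Topology Filter Metric

namespace Pool.Agent.H13.LU

theorem unif_of_local {l : Filter ℕ} {E : ℕ → ℂ → ℂ} {e : ℂ → ℂ} {K : Set ℂ} (hK : IsCompact K)
    (h : ∀ z ∈ K, ∃ r : ℝ, 0 < r ∧ TendstoUniformlyOn E e l (closedBall z r)) : TendstoUniformlyOn E e l K := by
  rw [← tendstoLocallyUniformlyOn_iff_tendstoUniformlyOn_of_compact hK]
  intro u hu z hz
  obtain ⟨r, hr, h1⟩ := h z hz
  exact ⟨closedBall z r, mem_nhdsWithin_of_mem_nhds (closedBall_mem_nhds z hr), h1 u hu⟩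

theorem inv_unif {l : Filter ℕ} {E : ℕ → ℂ → ℂ} {e : ℂ → ℂ} {S : Set ℂ} {m : ℝ} (hm : 0 < m) (he : ∀ z ∈ S, m ≤ ‖e z‖)
    (h : TendstoUniformlyOn E e l S) : TendstoUniformlyOn (fun n z => (E n z)⁻¹) (fun z => (e z)⁻¹) l S := by
  rw [Metric.tendstoUniformlyOn_iff] at h ⊢
  intro ε hε
  have h1 := h (min (m / 2) (ε * m ^ 2 / 2)) (by positivity)
  filter_upwards [h1] with n hn z hz
  have h2 := hn z hz
  rw [dist_eq_norm] at h2 ⊢
  have h3 : ‖e z - E n z‖ < m / 2 := lt_of_lt_of_le h2 (min_le_left _ _)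
  have h4 : ‖e z - E n z‖ < ε * m ^ 2 / 2 := lt_of_lt_of_le h2 (min_le_right _ _)
  have h5 := he z hz
  have h6 : m / 2 < ‖E n z‖ := by
    have := norm_sub_norm_le (e z) (E n z)
    linarith
  have he0 : e z ≠ 0 := by
    rintro h0
    rw [h0, norm_zero] at h5
    linarith
  have hE0 : E n z ≠ 0 := by
    rintro h0
    rw [h0, norm_zero] at h6
    linarith
  have h7 : (e z)⁻¹ - (E n z)⁻¹ = (E n z - e z) / (e z * E n z) := by
    field_simp
  rw [h7, norm_div, norm_mul, norm_sub_rev, div_lt_iff₀ (by positivity)]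
  have h8 : m * (m / 2) ≤ ‖e z‖ * ‖E n z‖ := mul_le_mul h5 h6.le (by positivity) (by positivity)
  calc ‖e z - E n z‖ < ε * m ^ 2 / 2 := h4
    _ = ε * (m * (m / 2)) := by ring
    _ ≤ ε * (‖e z‖ * ‖E n z‖) := mul_le_mul_of_nonneg_left h8 hε.le

/-- maximum principle: uniform Cauchy sequences on the circle are uniform Cauchy sequences on the disc -/
theorem cauchy_disc {l : Filter ℕ} {E : ℕ → ℂ → ℂ} {z₀ : ℂ} {r : ℝ} (hr : 0 < r)
    (hE : ∀ᶠ n in l, DifferentiableOn ℂ (E n) (closedBall z₀ r)) (h : UniformCauchySeqOn E l (sphere z₀ r)) :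
    UniformCauchySeqOn E l (closedBall z₀ r) := by
  intro u hu
  obtain ⟨ε, hε, hεu⟩ := Metric.mem_uniformity_dist.1 hu
  have h1 := h _ (Metric.dist_mem_uniformity (half_pos hε))
  have h2 : ∀ᶠ m in l ×ˢ l, DifferentiableOn ℂ (E m.1) (closedBall z₀ r) ∧ DifferentiableOn ℂ (E m.2) (closedBall z₀ r) := hE.prod_mk hE
  filter_upwards [h1, h2] with m hm1 hm2 z hz
  apply hεu
  have hd : DiffContOnCl ℂ (fun w => E m.1 w - E m.2 w) (ball z₀ r) := by
    apply DifferentiableOn.diffContOnCl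
    rw [closure_ball z₀ hr.ne']
    exact hm2.1.sub hm2.2
  have h3 : ‖E m.1 z - E m.2 z‖ ≤ ε / 2 := by
    refine Complex.norm_le_of_forall_mem_frontier_norm_le (U := ball z₀ r) isBounded_ball hd ?_ ?_
    · intro w hw
      rw [frontier_ball z₀ hr.ne'] at hw
      have h4 := hm1 w hw
      change dist (E m.1 w) (E m.2 w) < ε / 2 at h4
      rw [dist_eq_norm] at h4
      exact h4.le
    · rw [closure_ball z₀ hr.ne']
      exact hz
  rw [dist_eq_norm]
  linarith

/-- **Limits of functions without zeros.** -/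
theorem exists_limit {l : Filter ℕ} [l.NeBot] (hl : l ≤ atTop) {E : ℕ → ℂ → ℂ} {e : ℂ → ℂ} {Z : Set ℂ} (hZ : ∀ z, ∃ r : ℝ, 0 < r ∧ ∀ w ∈ closedBall z r, w ≠ z → w ∉ Z)
    (hE : ∀ n : ℕ, DifferentiableOn ℂ (E n) (ball 0 (n + 1))) (hE0 : ∀ n : ℕ, ∀ z ∈ ball (0 : ℂ) (n + 1), E n z ≠ 0)
    (hlim : ∀ z, z ∉ Z → ∃ r : ℝ, 0 < r ∧ TendstoUniformlyOn E e l (closedBall z r)) (he0 : ∀ z, z ∉ Z → e z ≠ 0) :
    ∃ g : ℂ → ℂ, Differentiable ℂ g ∧ (∀ z, g z ≠ 0) ∧ (∀ z, z ∉ Z → g z = e z) ∧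
      ∀ R : ℝ, TendstoUniformlyOn E g l (closedBall 0 R) := by
  -- eventually a disc is in the domain
  have hdom : ∀ R : ℝ, ∀ᶠ n : ℕ in l, closedBall (0 : ℂ) R ⊆ ball 0 (n + 1) := by
    intro R
    obtain ⟨n₀, hn₀⟩ := exists_nat_gt R
    filter_upwards [hl (eventually_ge_atTop n₀)] with n hn z hz
    rw [mem_closedBall_zero_iff] at hz
    rw [mem_ball_zero_iff]
    have : (n₀ : ℝ) ≤ n := by exact_mod_cast hn
    linarith
  have hdom' : ∀ (z₀ : ℂ) (r : ℝ), ∀ᶠ n : ℕ in l, closedBall z₀ r ⊆ ball 0 (n + 1) := by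
    intro z₀ r
    filter_upwards [hdom (‖z₀‖ + r)] with n hn z hz
    apply hn
    rw [mem_closedBall_zero_iff]
    rw [mem_closedBall, dist_eq_norm] at hz
    have := norm_sub_norm_le z z₀
    linarith
  have key : ∀ z₀ : ℂ, ∃ r : ℝ, 0 < r ∧ UniformCauchySeqOn E l (closedBall z₀ r) ∧
      UniformCauchySeqOn (fun n z => (E n z)⁻¹) l (closedBall z₀ r) := by
    intro z₀
    obtain ⟨r, hr, hrZ⟩ := hZ z₀
    have hsZ : ∀ w ∈ sphere z₀ r, w ∉ Z := by
      intro w hw
      refine hrZ w (sphere_subset_closedBall hw) ?_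
      rintro rfl
      rw [mem_sphere, dist_self] at hw
      exact hr.ne hw
    have h1 : TendstoUniformlyOn E e l (sphere z₀ r) :=
      unif_of_local (isCompact_sphere z₀ r) fun z hz => hlim z (hsZ z hz)
    have hcE : ∀ᶠ n in l, ContinuousOn (E n) (sphere z₀ r) := by
      filter_upwards [hdom' z₀ r] with n hn
      exact (hE n).continuousOn.mono (sphere_subset_closedBall.trans hn)
    have hc : ContinuousOn e (sphere z₀ r) := h1.continuousOn hcE.frequently
    obtain ⟨m, hm, hme⟩ : ∃ m : ℝ, 0 < m ∧ ∀ z ∈ sphere z₀ r, m ≤ ‖e z‖ := by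
      have hne : (sphere z₀ r).Nonempty := NormedSpace.sphere_nonempty.2 hr.le
      obtain ⟨w, hw, hwm⟩ := (isCompact_sphere z₀ r).exists_isMinOn hne hc.norm
      exact ⟨‖e w‖, norm_pos_iff.2 (he0 w (hsZ w hw)), fun z hz => hwm hz⟩
    refine ⟨r, hr, cauchy_disc hr ?_ h1.uniformCauchySeqOn, cauchy_disc hr ?_ (inv_unif hm hme h1).uniformCauchySeqOn⟩
    · filter_upwards [hdom' z₀ r] with n hn
      exact (hE n).mono hn
    · filter_upwards [hdom' z₀ r] with n hn
      exact ((hE n).mono hn).inv fun z hz => hE0 n z (hn hz)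
  -- the pointwise limits
  have hpt : ∀ z, ∃ g : ℂ, Tendsto (fun n => E n z) l (𝓝 g) := by
    intro z
    obtain ⟨r, hr, h1, -⟩ := key z
    exact cauchy_map_iff_exists_tendsto.1 (h1.cauchy_map (mem_closedBall_self hr.le))
  have hpt' : ∀ z, ∃ g : ℂ, Tendsto (fun n => (E n z)⁻¹) l (𝓝 g) := by
    intro z
    obtain ⟨r, hr, -, h1⟩ := key z
    exact cauchy_map_iff_exists_tendsto.1 (h1.cauchy_map (mem_closedBall_self hr.le))
  choose g hg using hpt
  choose g' hg' using hpt'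
  have hloc : ∀ z₀ : ℂ, ∃ r : ℝ, 0 < r ∧ TendstoUniformlyOn E g l (closedBall z₀ r) := by
    intro z₀
    obtain ⟨r, hr, h1, -⟩ := key z₀
    exact ⟨r, hr, h1.tendstoUniformlyOn_of_tendsto fun z _ => hg z⟩
  refine ⟨g, ?_, ?_, ?_, ?_⟩
  · intro z₀
    obtain ⟨r, hr, h1⟩ := hloc z₀
    have h2 : TendstoLocallyUniformlyOn E g l (ball z₀ r) := (h1.mono ball_subset_closedBall).tendstoLocallyUniformlyOn
    have h3 : ∀ᶠ n in l, DifferentiableOn ℂ (E n) (ball z₀ r) := by
      filter_upwards [hdom' z₀ r] with n hn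
      exact (hE n).mono (ball_subset_closedBall.trans hn)
    exact (h2.differentiableOn h3 isOpen_ball).differentiableAt (ball_mem_nhds z₀ hr)
  · intro z h0
    have h1 : Tendsto (fun n => E n z * (E n z)⁻¹) l (𝓝 (g z * g' z)) := (hg z).mul (hg' z)
    have h2 : Tendsto (fun n => E n z * (E n z)⁻¹) l (𝓝 1) := by
      apply tendsto_const_nhds.congr'
      filter_upwards [hdom' z 1] with n hn
      rw [mul_inv_cancel₀ (hE0 n z (hn (mem_closedBall_self zero_le_one)))]
    have h3 := tendsto_nhds_unique h1 h2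
    rw [h0, zero_mul] at h3
    exact zero_ne_one h3
  · intro z hz
    obtain ⟨r, hr, h1⟩ := hlim z hz
    exact tendsto_nhds_unique (hg z) (h1.tendsto_at (mem_closedBall_self hr.le))
  · exact fun R => unif_of_local (isCompact_closedBall 0 R) fun z _ => hloc z

end Pool.Agent.H13.LU
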