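import Pool.Agent.H13.LU.Quad
import Pool.Agent.H13.OT.Wrap
import Pool.Agent.H17EF.Alg

/-!
# LU Grow: units of entire curves of order two

Let `F` be an entire curve of order two and `E` an entire function without zeros with `E Q(F) = P(F)` for two forms `P, Q` of the same degree.  Then
`E` is the exponential of a polynomial of degree at most two.
-/

set_option autoImplicit false

open Topology Filter Metric MvPolynomial

namespace Pool.Agent.H13.LU

open Pool.Agent.H17 (PN HolomorphicInto)
open Pool.Agent.H13.OT (OrderTwo)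

theorem log_lower {b : ℂ → ℂ} (hb : Differentiable ℂ b) :
    ∃ C : ℝ, ∀ r : ℝ, 1 ≤ r → C ≤ Real.circleAverage (fun z => Real.log ‖b z‖) 0 r := by
  refine ⟨Real.log ‖meromorphicTrailingCoeffAt b 0‖, fun r hr => ?_⟩
  have hr0 : (0 : ℝ) < r := by linarith
  have hrr : |r| = r := abs_of_pos hr0
  have h1 : AnalyticOnNhd ℂ b (closedBall 0 |r|) := fun z _ => hb.analyticAt z
  rw [h1.meromorphicOn.circleAverage_log_norm hr0.ne']
  have hdiv : ∀ u, (0 : ℝ) ≤ MeromorphicOn.divisor b (closedBall 0 |r|) u := by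
    intro u
    have h4 : (0 : ℤ) ≤ MeromorphicOn.divisor b (closedBall 0 |r|) u := (MeromorphicOn.AnalyticOnNhd.divisor_nonneg h1) u
    exact_mod_cast h4
  have h3 : 0 ≤ ∑ᶠ u, MeromorphicOn.divisor b (closedBall 0 |r|) u * Real.log (r * ‖0 - u‖⁻¹) := by
    refine finsum_nonneg fun u => ?_
    by_cases hu : u ∈ closedBall (0 : ℂ) |r|
    · refine mul_nonneg (hdiv u) ?_
      by_cases hu0 : u = 0
      · simp [hu0]
      · apply Real.log_nonneg
        have h6 : 0 < ‖0 - u‖ := by simpa using hu0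
        rw [← div_eq_mul_inv, le_div_iff₀ h6, one_mul]
        rw [mem_closedBall, dist_zero_right, hrr] at hu
        simpa using hu
    · have : MeromorphicOn.divisor b (closedBall 0 |r|) u = 0 := by
        exact Function.locallyFinsuppWithin.apply_eq_zero_of_notMem _ hu
      rw [this]
      simp
  have h5 : 0 ≤ (MeromorphicOn.divisor b (closedBall 0 |r|) 0 : ℝ) * Real.log r := mul_nonneg (hdiv 0) (Real.log_nonneg hr)
  linarith

/-- forms are bounded by powers of the norm -/
theorem form_bound {N D : ℕ} {Q : MvPolynomial (Fin (N + 1)) ℂ} (hQ : Q.IsHomogeneous D) :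
    ∃ B : ℝ, 0 < B ∧ ∀ x : Fin (N + 1) → ℂ, x ≠ 0 → ‖eval x Q‖ ≤ B * ‖x‖ ^ D := by
  obtain ⟨B, hB, h⟩ := Pool.Agent.H17EF.exists_bound Q
  refine ⟨B, hB, fun x hx => ?_⟩
  have hn : 0 < ‖x‖ := norm_pos_iff.2 hx
  have hn' : ((‖x‖ : ℝ) : ℂ) ≠ 0 := by exact_mod_cast hn.ne'
  have h1 := h (((‖x‖ : ℝ) : ℂ)⁻¹ • x) (by
    rw [norm_smul, norm_inv, Complex.norm_real, Real.norm_of_nonneg hn.le, inv_mul_cancel₀ hn.ne'])
  rw [Pool.Agent.H17EF.eval_smul_form hQ, norm_mul, norm_pow, norm_inv, Complex.norm_real, Real.norm_of_nonneg hn.le, inv_pow,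
    inv_mul_le_iff₀ (by positivity)] at h1
  linarith

/-- **Units of curves of order two.** -/
theorem growth {N : ℕ} {F : ℂ → Fin (N + 1) → ℂ} (hF : Differentiable ℂ F) (hF0 : ∀ z, F z ≠ 0) {A : ℝ}
    (hA : ∀ r : ℝ, 0 < r → Real.circleAverage (fun z => Real.log ‖F z‖) 0 r ≤ A * (1 + r ^ 2))
    {D : ℕ} {P Q : MvPolynomial (Fin (N + 1)) ℂ} (hP : P.IsHomogeneous D) (hQ : Q.IsHomogeneous D)
    {φ : ℂ → ℂ} (hφ : Differentiable ℂ φ) (h : ∀ z, Complex.exp (φ z) * eval (F z) Q = eval (F z) P)
    (hne : ∃ z, eval (F z) Q ≠ 0) : ∃ a b c : ℂ, ∀ z, φ z = a * z ^ 2 + b * z + c := by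
  obtain ⟨B₁, hB₁, h₁⟩ := form_bound hP
  obtain ⟨B₂, hB₂, h₂⟩ := form_bound hQ
  set M : ℝ := max B₁ B₂ with hM
  have hM0 : 0 < M := lt_of_lt_of_le hB₁ (le_max_left _ _)
  set b : ℂ → ℂ := fun z => eval (F z) Q with hbdef
  have hban : ∀ z, AnalyticAt ℂ b z := fun z => Pool.Agent.H17EF.analyticAt_eval (hF.analyticAt z) Q
  have hb : Differentiable ℂ b := fun z => (hban z).differentiableAt
  obtain ⟨C, hC⟩ := log_lower hb
  have hlogF : Continuous fun z => Real.log ‖F z‖ := by
    apply Continuous.log hF.continuous.norm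
    exact fun z => norm_ne_zero_iff.2 (hF0 z)
  have hre : Continuous fun z => (φ z).re := Complex.continuous_re.comp hφ.continuous
  -- the pointwise estimate
  have hpt : ∀ z, b z ≠ 0 → max 0 (φ z).re ≤ Real.log M + D * Real.log ‖F z‖ - Real.log ‖b z‖ := by
    intro z hz
    have hFz : 0 < ‖F z‖ := norm_pos_iff.2 (hF0 z)
    have hbz : 0 < ‖b z‖ := norm_pos_iff.2 hz
    have e1 : Real.log (M * ‖F z‖ ^ D) = Real.log M + D * Real.log ‖F z‖ := by
      rw [Real.log_mul hM0.ne' (by positivity), Real.log_pow]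
    have e2 : Real.log ‖b z‖ ≤ Real.log M + D * Real.log ‖F z‖ := by
      rw [← e1]
      apply Real.log_le_log hbz
      refine (h₂ (F z) (hF0 z)).trans ?_
      exact mul_le_mul_of_nonneg_right (le_max_right _ _) (by positivity)
    have e3 : (φ z).re + Real.log ‖b z‖ ≤ Real.log M + D * Real.log ‖F z‖ := by
      have h3 : (φ z).re + Real.log ‖b z‖ = Real.log ‖eval (F z) P‖ := by
        rw [← h z, norm_mul, Real.log_mul (norm_ne_zero_iff.2 (Complex.exp_ne_zero _)) hbz.ne', Complex.norm_exp, Real.log_exp]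
      rw [h3, ← e1]
      apply Real.log_le_log
      · rw [norm_pos_iff, ← h z]
        exact mul_ne_zero (Complex.exp_ne_zero _) hz
      · refine (h₁ (F z) (hF0 z)).trans ?_
        exact mul_le_mul_of_nonneg_right (le_max_left _ _) (by positivity)
    rcases max_cases 0 (φ z).re with ⟨h3, -⟩ | ⟨h3, -⟩ <;> rw [h3] <;> linarith
  apply quadratic_of_mean hφ (A := 2 * (|Real.log M| + D * |A| + |C|) + |(φ 0).re|)
  intro r hr
  have hr0 : (0 : ℝ) < r := by linarith
  have hsub : sphere (0 : ℂ) |r| ⊆ closedBall 0 r := by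
    rw [abs_of_pos hr0]
    exact sphere_subset_closedBall
  -- the function without exceptional points
  set f₁ : ℂ → ℝ := fun z => if b z = 0 then Real.log M + D * Real.log ‖F z‖ - max 0 (φ z).re else Real.log ‖b z‖ with hf₁
  have hcod : (fun z => Real.log ‖b z‖) =ᶠ[codiscreteWithin (sphere (0 : ℂ) |r|)] f₁ := by
    obtain ⟨z₀, hz₀⟩ := hne
    have h1 : ∀ᶠ z in codiscreteWithin (Set.univ : Set ℂ), b z ≠ 0 := by
      have hbun : AnalyticOnNhd ℂ b Set.univ := fun z _ => hban z
      have h2 : b ⁻¹' {0}ᶜ ∈ codiscreteWithin (Set.univ : Set ℂ) :=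
        hbun.preimage_zero_mem_codiscreteWithin (x := z₀) hz₀ (Set.mem_univ _) isConnected_univ
      exact h2
    have h3 : ∀ᶠ z in codiscreteWithin (sphere (0 : ℂ) |r|), b z ≠ 0 := (codiscreteWithin_mono (Set.subset_univ _)) h1
    filter_upwards [h3] with z hz
    rw [hf₁]
    simp [hz]
  have hint : CircleIntegrable (fun z => Real.log ‖b z‖) 0 r := by
    have h1 : AnalyticOnNhd ℂ b (sphere 0 |r|) := fun z _ => hban z
    exact h1.meromorphicOn.circleIntegrable_log_norm
  have hint₁ : CircleIntegrable f₁ 0 r := hint.congr_codiscreteWithin hcod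
  have havg : Real.circleAverage (fun z => Real.log ‖b z‖) 0 r = Real.circleAverage f₁ 0 r :=
    Real.circleAverage_congr_codiscreteWithin hcod hr0.ne'
  have hi1 : CircleIntegrable (fun z => Real.log M + D * Real.log ‖F z‖) 0 r := by
    apply ContinuousOn.circleIntegrable'
    exact (continuous_const.add (continuous_const.mul hlogF)).continuousOn
  have hi2 : CircleIntegrable (fun z => max 0 (φ z).re) 0 r := by
    apply ContinuousOn.circleIntegrable'
    exact (continuous_const.max hre).continuousOn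
  have hi3 : CircleIntegrable (fun z => (φ z).re) 0 r := by
    apply ContinuousOn.circleIntegrable'
    exact hre.continuousOn
  have hle : Real.circleAverage (fun z => max 0 (φ z).re) 0 r ≤
      Real.circleAverage (fun z => (Real.log M + D * Real.log ‖F z‖) - f₁ z) 0 r := by
    refine Real.circleAverage_mono hi2 (hi1.sub hint₁) fun z _ => ?_
    by_cases hz : b z = 0
    · simp only [hf₁, hz, if_true]
      linarith
    · simp only [hf₁, hz, if_false]
      exact hpt z hz
  rw [Real.circleAverage_fun_sub hi1 hint₁, ← havg] at hle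
  have hF' : Real.circleAverage (fun z => Real.log M + D * Real.log ‖F z‖) 0 r =
      Real.log M + D * Real.circleAverage (fun z => Real.log ‖F z‖) 0 r := by
    rw [Real.circleAverage_fun_add, Real.circleAverage_const]
    · have h3 := Real.circleAverage_fun_smul (a := (D : ℝ)) (f := fun z => Real.log ‖F z‖) (c := 0) (R := r)
      simp only [smul_eq_mul] at h3
      rw [h3]
    · exact ContinuousOn.circleIntegrable' continuousOn_const
    · exact ContinuousOn.circleIntegrable' (continuous_const.mul hlogF).continuousOn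
  rw [hF'] at hle
  have hmean : Real.circleAverage (fun z => (φ z).re) 0 r = (φ 0).re := by
    have hc : CircleIntegrable φ 0 r := ContinuousOn.circleIntegrable' hφ.continuous.continuousOn
    have h3 := ContinuousLinearMap.circleAverage_comp_comm (c := 0) (R := r) (f := φ) Complex.reCLM hc
    have h4 : (Complex.reCLM ∘ φ) = fun z => (φ z).re := by
      ext z
      rfl
    rw [h4] at h3
    rw [h3, DiffContOnCl.circleAverage (f := φ) (c := 0) (R := r) hφ.diffContOnCl]
    rfl
  have habs : Real.circleAverage (fun z => |(φ z).re|) 0 r =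
      2 * Real.circleAverage (fun z => max 0 (φ z).re) 0 r - (φ 0).re := by
    rw [← hmean]
    have h3 := Real.circleAverage_fun_smul (a := (2 : ℝ)) (f := fun z => max 0 (φ z).re) (c := 0) (R := r)
    simp only [smul_eq_mul] at h3
    rw [← h3, ← Real.circleAverage_fun_sub _ hi3]
    · congr 1
      ext z
      rcases le_total 0 (φ z).re with h5 | h5
      · rw [abs_of_nonneg h5, max_eq_right h5]
        ring
      · rw [abs_of_nonpos h5, max_eq_left h5]
        ring
    · exact ContinuousOn.circleIntegrable' (continuous_const.mul (continuous_const.max hre)).continuousOn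
  have h6 := hA r hr0
  have h7 := hC r hr
  have h8 : (D : ℝ) * Real.circleAverage (fun z => Real.log ‖F z‖) 0 r ≤ D * (|A| * (1 + r ^ 2)) := by
    apply mul_le_mul_of_nonneg_left _ (by positivity)
    refine h6.trans (mul_le_mul_of_nonneg_right (le_abs_self A) (by positivity))
  have h9 : (1 : ℝ) ≤ 1 + r ^ 2 := by nlinarith
  have h10 : Real.log M ≤ |Real.log M| * (1 + r ^ 2) := by
    calc Real.log M ≤ |Real.log M| * 1 := by rw [mul_one]; exact le_abs_self _
      _ ≤ _ := mul_le_mul_of_nonneg_left h9 (abs_nonneg _)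
  have h11 : -C ≤ |C| * (1 + r ^ 2) := by
    calc -C ≤ |C| * 1 := by rw [mul_one]; exact neg_le_abs _
      _ ≤ _ := mul_le_mul_of_nonneg_left h9 (abs_nonneg _)
  have h12 : -(φ 0).re ≤ |(φ 0).re| * (1 + r ^ 2) := by
    calc -(φ 0).re ≤ |(φ 0).re| * 1 := by rw [mul_one]; exact neg_le_abs _
      _ ≤ _ := mul_le_mul_of_nonneg_left h9 (abs_nonneg _)
  rw [habs]
  have h13 : (2 * (|Real.log M| + D * |A| + |C|) + |(φ 0).re|) * (1 + r ^ 2) =
      2 * (|Real.log M| * (1 + r ^ 2) + D * (|A| * (1 + r ^ 2)) + |C| * (1 + r ^ 2)) + |(φ 0).re| * (1 + r ^ 2) := by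
    ring
  rw [h13]
  linarith

end Pool.Agent.H13.LU
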