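import Mathlib.Analysis.Complex.BranchLogRoot
import Mathlib.Analysis.Convex.Contractible
import Mathlib.Analysis.Complex.CauchyIntegral
import Mathlib.Analysis.SpecialFunctions.Complex.LogBounds
import Mathlib.Analysis.Calculus.MeanValue

/-!
# LU Logs: convergence of logarithms

If `E n` has no zeros on the disc of radius `n + 1` and converges locally uniformly to `exp φ`, then there are holomorphic logarithms `Φ n` of `E n` which converge
locally uniformly to `φ`.
-/

set_option autoImplicit false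

open Topology Filter Metric

namespace Pool.Agent.H13.LU

/-- A holomorphic logarithm on a convex open set. -/
theorem exists_log {U : Set ℂ} (hUo : IsOpen U) (hUc : Convex ℝ U) (hUn : U.Nonempty) {k : ℂ → ℂ}
    (hk : DifferentiableOn ℂ k U) (hk0 : ∀ w ∈ U, k w ≠ 0) :
    ∃ G : ℂ → ℂ, DifferentiableOn ℂ G U ∧ ∀ w ∈ U, Complex.exp (G w) = k w := by
  have hsc : IsSimplyConnected U := by
    have := hUc.contractibleSpace hUn
    exact SimplyConnectedSpace.ofContractible U
  obtain ⟨G, hGc, hGe⟩ := Complex.exists_continuousOn_eqOn_exp_comp hsc hUo hk.continuousOn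
    (by rintro ⟨w, hw, h0⟩; exact hk0 w hw h0)
  refine ⟨G, ?_, fun w hw => hGe hw⟩
  intro w0 hw0
  apply DifferentiableAt.differentiableWithinAt
  have hkd : DifferentiableAt ℂ k w0 := (hk w0 hw0).differentiableAt (hUo.mem_nhds hw0)
  have hGca : ContinuousAt G w0 := hGc.continuousAt (hUo.mem_nhds hw0)
  have hev : G =ᶠ[𝓝 w0] fun w => G w0 + Complex.log (k w / k w0) := by
    have h1 : ∀ᶠ w in 𝓝 w0, w ∈ U := hUo.mem_nhds hw0
    have h2 : ∀ᶠ w in 𝓝 w0, ‖G w - G w0‖ < Real.pi := by
      have : Tendsto (fun w => ‖G w - G w0‖) (𝓝 w0) (𝓝 ‖G w0 - G w0‖) :=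
        (hGca.sub continuousAt_const).norm
      rw [sub_self, norm_zero] at this
      exact this.eventually (gt_mem_nhds Real.pi_pos)
    filter_upwards [h1, h2] with w hw hw2
    have e1 : k w / k w0 = Complex.exp (G w - G w0) := by
      rw [Complex.exp_sub]
      have e2 : Complex.exp (G w) = k w := hGe hw
      have e3 : Complex.exp (G w0) = k w0 := hGe hw0
      rw [e2, e3]
    have h3 : |(G w - G w0).im| < Real.pi := (Complex.abs_im_le_norm _).trans_lt hw2
    rw [e1, Complex.log_exp (by linarith [(abs_lt.mp h3).1]) (abs_lt.mp h3).2.le]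
    ring
  refine DifferentiableAt.congr_of_eventuallyEq ?_ hev
  apply DifferentiableAt.const_add
  apply DifferentiableAt.clog (hkd.div_const _)
  rw [div_self (hk0 w0 hw0)]
  exact Complex.one_mem_slitPlane

/-- a function with values in `2 π i ℤ` is constant -/
theorem const_of_exp_eq_one {U : Set ℂ} (hUo : IsOpen U) (hUc : Convex ℝ U) {d : ℂ → ℂ} (hd : DifferentiableOn ℂ d U)
    (h1 : ∀ w ∈ U, Complex.exp (d w) = 1) {x y : ℂ} (hx : x ∈ U) (hy : y ∈ U) : d x = d y := by
  refine hUo.is_const_of_deriv_eq_zero hUc.isPreconnected hd ?_ hx hy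
  intro w hw
  have hdw : DifferentiableAt ℂ d w := (hd w hw).differentiableAt (hUo.mem_nhds hw)
  have h2 : HasDerivAt (fun z => Complex.exp (d z)) (Complex.exp (d w) * deriv d w) w := hdw.hasDerivAt.cexp
  have h3 : HasDerivAt (fun z => Complex.exp (d z)) 0 w := by
    apply (hasDerivAt_const w (1 : ℂ)).congr_of_eventuallyEq
    filter_upwards [hUo.mem_nhds hw] with z hz using h1 z hz
  have h4 := h2.unique h3
  rw [h1 w hw, one_mul] at h4
  exact h4

/-- **Convergence of logarithms.** -/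
theorem exists_logs {l : Filter ℕ} (hl : l ≤ atTop) {E : ℕ → ℂ → ℂ} {φ : ℂ → ℂ} (hφ : Differentiable ℂ φ)
    (hE : ∀ n : ℕ, DifferentiableOn ℂ (E n) (ball 0 (n + 1))) (hE0 : ∀ n : ℕ, ∀ z ∈ ball (0 : ℂ) (n + 1), E n z ≠ 0)
    (hlim : ∀ R : ℝ, TendstoUniformlyOn E (fun z => Complex.exp (φ z)) l (closedBall 0 R)) :
    ∃ Φ : ℕ → ℂ → ℂ, (∀ n : ℕ, DifferentiableOn ℂ (Φ n) (ball 0 (n + 1))) ∧
      (∀ n : ℕ, ∀ z ∈ ball (0 : ℂ) (n + 1), Complex.exp (Φ n z) = E n z) ∧
      ∀ R : ℝ, TendstoUniformlyOn Φ φ l (closedBall 0 R) := by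
  have h0m : ∀ n : ℕ, (0 : ℂ) ∈ ball (0 : ℂ) (n + 1) := fun n => mem_ball_self (by positivity)
  have hex : ∀ n : ℕ, ∃ G : ℂ → ℂ, DifferentiableOn ℂ G (ball 0 (n + 1)) ∧ ∀ w ∈ ball (0 : ℂ) (n + 1), Complex.exp (G w) = E n w :=
    fun n => exists_log isOpen_ball (convex_ball _ _) ⟨0, h0m n⟩ (hE n) (hE0 n)
  choose G hG hGe using hex
  refine ⟨fun n z => G n z - G n 0 + (φ 0 + Complex.log (E n 0 * Complex.exp (-φ 0))), fun n => ?_, fun n z hz => ?_, fun R => ?_⟩
  · exact ((hG n).sub_const _).add_const _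
  · have h1 : E n 0 * Complex.exp (-φ 0) ≠ 0 := mul_ne_zero (hE0 n 0 (h0m n)) (Complex.exp_ne_zero _)
    rw [Complex.exp_add, Complex.exp_sub, Complex.exp_add, Complex.exp_log h1, hGe n z hz, hGe n 0 (h0m n), Complex.exp_neg]
    have h2 := Complex.exp_ne_zero (φ 0)
    have h3 := hE0 n 0 (h0m n)
    field_simp
  · -- on a larger disc
    set R' : ℝ := |R| + 1 with hR'
    have hR'0 : 0 < R' := by positivity
    have hRR' : R < R' := by
      have := le_abs_self R
      linarith
    obtain ⟨M, hM⟩ : ∃ M : ℝ, ∀ z ∈ closedBall (0 : ℂ) R', ‖Complex.exp (-φ z)‖ ≤ M :=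
      (isCompact_closedBall (0 : ℂ) R').exists_bound_of_continuousOn (Complex.continuous_exp.comp hφ.continuous.neg).continuousOn
    have hM1 : 0 < |M| + 1 := by positivity
    rw [Metric.tendstoUniformlyOn_iff]
    intro ε hε
    have h1 := Metric.tendstoUniformlyOn_iff.1 (hlim R') (min (1 / 2) (ε / 2) / (|M| + 1)) (by positivity)
    obtain ⟨n₀, hn₀⟩ := exists_nat_gt R'
    filter_upwards [h1, hl (eventually_ge_atTop n₀)] with n hn hn' z hz
    have hn1 : R' < n + 1 := by
      have : (n₀ : ℝ) ≤ n := by exact_mod_cast hn'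
      linarith
    have hsub : ball (0 : ℂ) R' ⊆ ball 0 (n + 1) := ball_subset_ball hn1.le
    -- the quotient is close to one
    have hq : ∀ w ∈ closedBall (0 : ℂ) R', ‖E n w * Complex.exp (-φ w) - 1‖ < min (1 / 2) (ε / 2) := by
      intro w hw
      have h2 := hn w hw
      rw [dist_eq_norm] at h2
      have h3 : E n w * Complex.exp (-φ w) - 1 = (E n w - Complex.exp (φ w)) * Complex.exp (-φ w) := by
        rw [sub_mul, ← Complex.exp_add, add_neg_cancel, Complex.exp_zero]
      rw [h3, norm_mul, norm_sub_rev]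
      rw [lt_div_iff₀ hM1] at h2
      refine lt_of_le_of_lt (mul_le_mul_of_nonneg_left ((hM w hw).trans ((le_abs_self M).trans (by linarith))) (norm_nonneg _)) h2
    have hq' : ∀ w ∈ closedBall (0 : ℂ) R', E n w * Complex.exp (-φ w) ∈ Complex.slitPlane := by
      intro w hw
      have h2 : ‖E n w * Complex.exp (-φ w) - 1‖ < 1 := (hq w hw).trans_le ((min_le_left _ _).trans (by norm_num))
      have h3 := Complex.mem_slitPlane_of_norm_lt_one h2
      rwa [add_sub_cancel] at h3
    -- the difference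
    set d : ℂ → ℂ := fun w => (G n w - G n 0 + (φ 0 + Complex.log (E n 0 * Complex.exp (-φ 0)))) - φ w -
      Complex.log (E n w * Complex.exp (-φ w)) with hd
    have hdd : DifferentiableOn ℂ d (ball 0 R') := by
      have h2 : DifferentiableOn ℂ (fun w => E n w * Complex.exp (-φ w)) (ball 0 R') :=
        ((hE n).mono hsub).mul (hφ.neg.cexp).differentiableOn
      refine DifferentiableOn.sub (DifferentiableOn.sub ?_ hφ.differentiableOn) ?_
      · exact (((hG n).mono hsub).sub_const _).add_const _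
      · exact h2.clog fun w hw => hq' w (ball_subset_closedBall hw)
    have hde : ∀ w ∈ ball (0 : ℂ) R', Complex.exp (d w) = 1 := by
      intro w hw
      have h2 : E n w * Complex.exp (-φ w) ≠ 0 := mul_ne_zero (hE0 n w (hsub hw)) (Complex.exp_ne_zero _)
      have h1 : E n 0 * Complex.exp (-φ 0) ≠ 0 := mul_ne_zero (hE0 n 0 (h0m n)) (Complex.exp_ne_zero _)
      rw [hd]
      simp only
      rw [Complex.exp_sub, Complex.exp_sub, Complex.exp_add, Complex.exp_sub, Complex.exp_add, Complex.exp_log h1, Complex.exp_log h2,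
        hGe n w (hsub hw), hGe n 0 (h0m n), Complex.exp_neg, Complex.exp_neg]
      have h4 := Complex.exp_ne_zero (φ 0)
      have h5 := Complex.exp_ne_zero (φ w)
      have h6 := hE0 n 0 (h0m n)
      have h7 := hE0 n w (hsub hw)
      field_simp
    have hzR : z ∈ ball (0 : ℂ) R' := by
      rw [mem_closedBall_zero_iff] at hz
      rw [mem_ball_zero_iff]
      linarith
    have hd0 : d z = d 0 := const_of_exp_eq_one isOpen_ball (convex_ball _ _) hdd hde hzR (mem_ball_self hR'0)
    have hd00 : d 0 = 0 := by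
      rw [hd]
      simp only
      ring
    rw [hd00] at hd0
    have h5 : G n z - G n 0 + (φ 0 + Complex.log (E n 0 * Complex.exp (-φ 0))) - φ z = Complex.log (E n z * Complex.exp (-φ z)) := by
      rw [hd] at hd0
      simp only at hd0
      exact sub_eq_zero.1 hd0
    rw [dist_eq_norm, norm_sub_rev, h5]
    have h6 := hq z (ball_subset_closedBall hzR)
    have h7 : ‖E n z * Complex.exp (-φ z) - 1‖ ≤ 1 / 2 := h6.le.trans (min_le_left _ _)
    have h8 := Complex.norm_log_one_add_half_le_self h7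
    rw [add_sub_cancel] at h8
    have h9 : ‖E n z * Complex.exp (-φ z) - 1‖ < ε / 2 := h6.trans_le (min_le_right _ _)
    calc ‖Complex.log (E n z * Complex.exp (-φ z))‖ ≤ 3 / 2 * ‖E n z * Complex.exp (-φ z) - 1‖ := h8
      _ < 3 / 2 * (ε / 2) := by linarith
      _ < ε := by linarith

end Pool.Agent.H13.LU
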