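import Pool.Agent.H13.LU.Ext
import Pool.Agent.H13.LU.Grow
import Pool.Agent.H13.LU.Logs
import Pool.Agent.H36.LB.PNDefs
import Pool.Agent.H17.BrodyLimit
import Pool.Agent.H17BP.Final

/-!
# LU PhCore: units along limits of discs of order two

`f` is the limit of the discs `F n` in `U`, with `T_f(r) = O(r²)`; `e` is a unit of `U` which is a rational function.  Then
`e ∘ F n = exp (φ n)`, and `φ n → φ` locally uniformly on `ℂ`, where `φ` is a polynomial of degree at most two with `e ∘ f = exp φ`.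
-/

set_option autoImplicit false

open Topology Filter Metric MvPolynomial

namespace Pool.Agent.H13.LU

open Pool.Agent.H17 (PN VanishesAt HolomorphicInto vanishesAt_mk_iff)
open Pool.Agent.H36.LB (ConvPN IsLimitPN)
open Pool.Agent.H13.OT (OrderTwo)

variable {N : ℕ}

theorem closedBall_unif {l : Filter ℕ} {E : ℕ → ℂ → ℂ} {e : ℂ → ℂ} {z : ℂ} {r : ℝ} (hr : 0 < r) (h : TendstoLocallyUniformlyOn E e l (ball z r)) :
    ∃ r' : ℝ, 0 < r' ∧ TendstoUniformlyOn E e l (closedBall z r') := by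
  refine ⟨r / 2, by positivity, ?_⟩
  exact (tendstoLocallyUniformlyOn_iff_tendstoUniformlyOn_of_compact (isCompact_closedBall z (r / 2))).1
    (h.mono (closedBall_subset_ball (by linarith)))

/-- **Phases.** -/
theorem phases_core {U : Set (PN N)} {l : Filter ℕ} {F : ℕ → ℂ → PN N} {f : ℂ → PN N} (hl : IsLimitPN U l F f) (hord : OrderTwo f) {e : PN N → ℂ}
    (hE : ∀ n : ℕ, DifferentiableOn ℂ (fun z => e (F n z)) (ball 0 (n + 1)))
    (hE0 : ∀ n : ℕ, ∀ z ∈ ball (0 : ℂ) (n + 1), e (F n z) ≠ 0)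
    (hconv : ∀ z, ConvPN l F f z → ∃ r : ℝ, 0 < r ∧ TendstoLocallyUniformlyOn (fun n z => e (F n z)) (fun z => e (f z)) l (ball z r))
    (he0 : ∀ z, ConvPN l F f z → e (f z) ≠ 0)
    {D : ℕ} {A B : MvPolynomial (Fin (N + 1)) ℂ} (hA : A.IsHomogeneous D) (hB : B.IsHomogeneous D)
    (hAB : ∀ z, ConvPN l F f z → e (f z) * eval (f z).rep B = eval (f z).rep A) (hv : ∃ z, ¬ VanishesAt B (f z)) :
    ∃ (a b c : ℂ) (φn : ℕ → ℂ → ℂ), (∀ n : ℕ, DifferentiableOn ℂ (φn n) (ball 0 (n + 1))) ∧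
      (∀ n : ℕ, ∀ z ∈ ball (0 : ℂ) (n + 1), Complex.exp (φn n z) = e (F n z)) ∧
      (∀ R : ℝ, TendstoUniformlyOn φn (fun z => a * z ^ 2 + b * z + c) l (closedBall 0 R)) ∧
      ∀ z, ConvPN l F f z → e (f z) = Complex.exp (a * z ^ 2 + b * z + c) := by
  haveI := hl.neBot
  -- the exceptional set
  have hZ : ∀ z : ℂ, ∃ r : ℝ, 0 < r ∧ ∀ w ∈ closedBall z r, w ≠ z → w ∉ {w | ¬ ConvPN l F f w} := by
    intro z
    have h1 := hl.conv z
    rw [eventually_nhdsWithin_iff] at h1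
    obtain ⟨r, hr, hrb⟩ := Metric.eventually_nhds_iff_ball.1 h1
    refine ⟨r / 2, by positivity, fun w hw hwz hcon => hcon (hrb w ?_ hwz)⟩
    exact closedBall_subset_ball (by linarith) hw
  obtain ⟨g, hg, hg0, hge, hgl⟩ := exists_limit hl.le_atTop hZ hE hE0
    (fun z hz => by
      obtain ⟨r, hr, h1⟩ := hconv z (not_not.1 hz)
      exact closedBall_unif hr h1)
    (fun z hz => he0 z (not_not.1 hz))
  -- the logarithm
  obtain ⟨φ, hφ, hφg⟩ := exists_log (U := Set.univ) isOpen_univ convex_univ Set.univ_nonempty hg.differentiableOn (fun w _ => hg0 w)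
  have hφd : Differentiable ℂ φ := differentiableOn_univ.1 hφ
  have hφg' : ∀ z, Complex.exp (φ z) = g z := fun z => hφg z (Set.mem_univ z)
  -- the lift
  obtain ⟨F₀, C, hF₀, hF₀f, hC⟩ := hord
  have hF₀0 : ∀ z, F₀ z ≠ 0 := fun z => (hF₀f z).1
  have hmk : ∀ z, f z = Projectivization.mk ℂ (F₀ z) (hF₀0 z) := fun z => (hF₀f z).2
  have hrel : ∀ z, ConvPN l F f z → Complex.exp (φ z) * eval (F₀ z) B = eval (F₀ z) A := by
    intro z hz
    obtain ⟨c, hc⟩ := Projectivization.exists_smul_eq_mk_rep ℂ (F₀ z) (hF₀0 z)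
    have h1 := hAB z hz
    have hc' : (f z).rep = (c : ℂ) • F₀ z := by
      rw [hmk z, ← hc]
      rfl
    rw [hc', Pool.Agent.H17BP.eval_smul_form hA, Pool.Agent.H17BP.eval_smul_form hB] at h1
    have hcD : (c : ℂ) ^ D ≠ 0 := pow_ne_zero _ c.ne_zero
    rw [hφg', hge z (not_not.2 hz)]
    have h2 : (c : ℂ) ^ D * (e (f z) * eval (F₀ z) B) = (c : ℂ) ^ D * eval (F₀ z) A := by
      rw [← h1]
      ring
    exact mul_left_cancel₀ hcD h2
  have hcA : Continuous fun z => eval (F₀ z) A := (MvPolynomial.continuous_eval A).comp hF₀.continuous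
  have hcB : Continuous fun z => eval (F₀ z) B := (MvPolynomial.continuous_eval B).comp hF₀.continuous
  have hrel' : ∀ z, Complex.exp (φ z) * eval (F₀ z) B = eval (F₀ z) A := by
    intro z
    have h1 : ∀ᶠ w in 𝓝[≠] z, Complex.exp (φ w) * eval (F₀ w) B = eval (F₀ w) A := (hl.conv z).mono fun w hw => hrel w hw
    have h2 : Tendsto (fun w => Complex.exp (φ w) * eval (F₀ w) B) (𝓝[≠] z) (𝓝 (Complex.exp (φ z) * eval (F₀ z) B)) :=
      ((hφd.continuous.cexp.mul hcB).tendsto z).mono_left nhdsWithin_le_nhds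
    have h3 : Tendsto (fun w => eval (F₀ w) A) (𝓝[≠] z) (𝓝 (eval (F₀ z) A)) := (hcA.tendsto z).mono_left nhdsWithin_le_nhds
    exact tendsto_nhds_unique (h2.congr' h1) h3
  have hne : ∃ z, eval (F₀ z) B ≠ 0 := by
    obtain ⟨z, hz⟩ := hv
    refine ⟨z, fun h0 => hz ?_⟩
    rw [hmk z]
    exact (vanishesAt_mk_iff hB _ _).2 h0
  obtain ⟨a, b, c, habc⟩ := growth hF₀ hF₀0 hC hA hB hφd hrel' hne
  have hfun : φ = fun z => a * z ^ 2 + b * z + c := funext habc
  have hlim : ∀ R : ℝ, TendstoUniformlyOn (fun n z => e (F n z)) (fun z => Complex.exp (φ z)) l (closedBall 0 R) := by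
    intro R
    have h1 := hgl R
    have h2 : (fun z => Complex.exp (φ z)) = g := funext hφg'
    rw [h2]
    exact h1
  obtain ⟨φn, h1, h2, h3⟩ := exists_logs hl.le_atTop hφd hE hE0 hlim
  refine ⟨a, b, c, φn, h1, h2, fun R => ?_, fun z hz => ?_⟩
  · rw [← hfun]
    exact h3 R
  · rw [← habc z, hφg', hge z (not_not.2 hz)]

end Pool.Agent.H13.LU
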