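import Pool.Agent.H13.LU.PhCore
import Pool.Agent.H4.LU.Hol
import Pool.Agent.H4.LU.Limit

/-!
# LU Phases: the third input of `Pool.Agent.H4.LU.Main`
-/

set_option autoImplicit false

open Topology Filter Metric MvPolynomial

namespace Pool.Agent.H13.LU

open Pool.Agent.H17 (PN VanishesAt HolomorphicInto)
open Pool.Agent.H62.SA (locVar)
open Pool.Agent.H36.LB (ConvPN IsLimitPN)
open Pool.Agent.H13.OT (OrderTwo)
open Pool.Agent.H4.LU (IsModel IsRegularInto analyticAt_e holInto_j conv_e Lim lim_of_phases)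

variable {M N : ℕ}

/-- **The limits of discs in `U`, with `e ∘ j ∘ f = exp (a z ^ 2 + b z + c)`.** -/
theorem exists_lim {P : Ideal (MvPolynomial (Fin (N + 1)) ℂ)} {s : ℕ} {G : Fin s → MvPolynomial (Fin (N + 1)) ℂ} {Y V : Set (PN M)} {e : PN M → ℂ}
    {j : PN N → PN M} (hY : IsModel Y V e) (hj : IsRegularInto P G V e j) {D : ℕ} {A B : MvPolynomial (Fin (N + 1)) ℂ} (hA : A.IsHomogeneous D)
    (hB : B.IsHomogeneous D) (hAB : ∀ x ∈ locVar P G, e (j x) * eval x.rep B = eval x.rep A) {l : Filter ℕ} {F : ℕ → ℂ → PN N} {f : ℂ → PN N}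
    (hl : IsLimitPN (locVar P G) l F f) (hord : OrderTwo f) (hv : ∃ z, ¬ VanishesAt B (f z)) : ∃ a b c : ℂ, Lim V e j l F f a b c := by
  have hE : ∀ n : ℕ, ∀ z ∈ ball (0 : ℂ) (n + 1), AnalyticAt ℂ (fun w => e (j (F n w))) z ∧ e (j (F n z)) ≠ 0 := by
    intro n z hz
    obtain ⟨Φ, hΦ, he⟩ := holInto_j hj isOpen_ball (hl.holF n) (hl.memF n) z hz
    refine analyticAt_e (g := fun w => j (F n w)) hY hΦ he ?_
    filter_upwards [isOpen_ball.mem_nhds hz] with w hw
    exact hj.maps _ (hl.memF n w hw)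
  have he0 : ∀ z, ConvPN l F f z → e (j (f z)) ≠ 0 := by
    intro z hz
    -- the values of `e` on `V` are not zero
    have hm : j (f z) ∈ V := hj.maps _ (hl.mem_of_conv z hz)
    have h1 : ∃ φ : ℂ → Fin (M + 1) → ℂ, AnalyticAt ℂ φ 0 ∧ ∀ᶠ w in 𝓝 (0 : ℂ), ∃ h : φ w ≠ 0, j (f z) = Projectivization.mk ℂ (φ w) h :=
      ⟨fun _ => (j (f z)).rep, analyticAt_const, Eventually.of_forall fun w => ⟨(j (f z)).rep_nonzero, (Projectivization.mk_rep _).symm⟩⟩
    obtain ⟨φ, hφ, h2⟩ := h1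
    exact (analyticAt_e (g := fun _ => j (f z)) hY hφ h2 (Eventually.of_forall fun _ => hm)).2
  obtain ⟨a, b, c, φn, h1, h2, h3, h4⟩ := phases_core (e := fun x => e (j x)) hl hord
    (fun n z hz => (hE n z hz).1.differentiableAt.differentiableWithinAt) (fun n z hz => (hE n z hz).2)
    (fun z hz => conv_e hY hj hl hz) he0 hA hB (fun z hz => hAB _ (hl.mem_of_conv z hz)) hv
  refine ⟨a, b, c, lim_of_phases (φn := φn) hj hl ?_ ?_ h4⟩
  · intro R
    obtain ⟨n₀, hn₀⟩ := exists_nat_gt R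
    filter_upwards [hl.le_atTop (eventually_ge_atTop n₀)] with n hn
    have hn1 : R ≤ n + 1 := by
      have : (n₀ : ℝ) ≤ n := by exact_mod_cast hn
      linarith
    have hsub : ball (0 : ℂ) R ⊆ ball 0 (n + 1) := ball_subset_ball hn1
    exact ⟨(h1 n).mono hsub, fun z hz => (h2 n z (hsub hz)).symm⟩
  · rw [tendstoLocallyUniformlyOn_iff_forall_isCompact isOpen_univ]
    intro K _ hK
    obtain ⟨R, hR⟩ := hK.isBounded.subset_closedBall 0
    exact (h3 R).mono hR

end Pool.Agent.H13.LU
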