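import Mathlib.Analysis.Complex.Liouville
import Mathlib.Analysis.Complex.MeanValue
import Mathlib.MeasureTheory.Integral.CircleAverage

/-!
# LU Quad: an entire function whose real part has quadratic mean growth is a polynomial of degree at most two
-/

set_option autoImplicit false

open Topology Filter Metric

namespace Pool.Agent.H13.LU

/-- The Taylor coefficient as a mean value. -/
theorem coeff_eq {φ : ℂ → ℂ} {R : ℝ} (hR : R ≠ 0) (k : ℕ) :
    (cauchyPowerSeries φ 0 R k fun _ => 1) = Real.circleAverage (fun z => (z⁻¹) ^ k * φ z) 0 R := by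
  rw [cauchyPowerSeries_apply, Real.circleAverage_eq_circleIntegral hR]
  simp only [sub_zero, one_div, smul_eq_mul]
  congr 2
  ext z
  ring

theorem norm_circleAverage_le {g : ℂ → ℂ} {R : ℝ} : ‖Real.circleAverage g 0 R‖ ≤ Real.circleAverage (fun z => ‖g z‖) 0 R := by
  rw [Real.circleAverage_def, Real.circleAverage_def, norm_smul, smul_eq_mul, Real.norm_of_nonneg (by positivity)]
  apply mul_le_mul_of_nonneg_left _ (by positivity)
  exact intervalIntegral.norm_integral_le_integral_norm (by positivity)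

theorem average_conj {φ : ℂ → ℂ} (hφ : Differentiable ℂ φ) {R : ℝ} (hR : 0 < R) {k : ℕ} (hk : 1 ≤ k) :
    Real.circleAverage (fun z => (z⁻¹) ^ k * (starRingEnd ℂ) (φ z)) 0 R = 0 := by
  have h1 : Real.circleAverage (fun z => z ^ k * φ z) 0 R = 0 := by
    have hd : Differentiable ℂ fun z => z ^ k * φ z := (differentiable_id.pow k).mul hφ
    have h2 := DiffContOnCl.circleAverage (f := fun z => z ^ k * φ z) (c := 0) (R := R) hd.diffContOnCl
    rw [h2]
    simp [show k ≠ 0 by omega]
  have h2 : Real.circleAverage (fun z => (starRingEnd ℂ) (((R : ℂ) ^ (2 * k))⁻¹ * (z ^ k * φ z))) 0 R = 0 := by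
    have hc : CircleIntegrable (fun z => ((R : ℂ) ^ (2 * k))⁻¹ * (z ^ k * φ z)) 0 R := by
      apply ContinuousOn.circleIntegrable'
      exact (continuous_const.mul ((continuous_id.pow k).mul hφ.continuous)).continuousOn
    have h3 := ContinuousLinearMap.circleAverage_comp_comm (c := 0) (R := R) (f := fun z => ((R : ℂ) ^ (2 * k))⁻¹ * (z ^ k * φ z))
      (Complex.conjCLE : ℂ →L[ℝ] ℂ) hc
    have h4 : ((Complex.conjCLE : ℂ →L[ℝ] ℂ) ∘ fun z => ((R : ℂ) ^ (2 * k))⁻¹ * (z ^ k * φ z)) =
        fun z => (starRingEnd ℂ) (((R : ℂ) ^ (2 * k))⁻¹ * (z ^ k * φ z)) := by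
      ext z
      rfl
    rw [h4] at h3
    rw [h3]
    have h5 : Real.circleAverage (fun z => ((R : ℂ) ^ (2 * k))⁻¹ * (z ^ k * φ z)) 0 R = 0 := by
      have h6 := Real.circleAverage_fun_smul (a := ((R : ℂ) ^ (2 * k))⁻¹) (f := fun z => z ^ k * φ z) (c := 0) (R := R)
      simp only [smul_eq_mul] at h6
      rw [h6, h1, mul_zero]
    rw [h5, map_zero]
  refine Eq.trans (Real.circleAverage_congr_sphere ?_) h2
  intro z hz
  rw [abs_of_pos hR, mem_sphere_zero_iff_norm] at hz
  have hz0 : z ≠ 0 := by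
    rintro rfl
    rw [norm_zero] at hz
    exact hR.ne hz
  have hR0 : (R : ℂ) ≠ 0 := by exact_mod_cast hR.ne'
  have hzz : (starRingEnd ℂ) z = (R : ℂ) ^ 2 * z⁻¹ := by
    rw [eq_mul_inv_iff_mul_eq₀ hz0, mul_comm, Complex.mul_conj, Complex.normSq_eq_norm_sq, hz]
    push_cast
    ring
  simp only [map_mul, map_pow, map_inv₀, Complex.conj_ofReal]
  rw [hzz, mul_pow, ← pow_mul]
  field_simp

/-- **Entire functions with real part of quadratic mean growth.** -/
theorem quadratic_of_mean {φ : ℂ → ℂ} (hφ : Differentiable ℂ φ) {A : ℝ}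
    (hA : ∀ r : ℝ, 1 ≤ r → Real.circleAverage (fun z => |(φ z).re|) 0 r ≤ A * (1 + r ^ 2)) :
    ∃ a b c : ℂ, ∀ z, φ z = a * z ^ 2 + b * z + c := by
  have hp : HasFPowerSeriesOnBall φ (cauchyPowerSeries φ 0 ((1 : NNReal) : ℝ)) 0 ⊤ :=
    hφ.hasFPowerSeriesOnBall (R := 1) 0 one_pos
  set p := cauchyPowerSeries φ 0 ((1 : NNReal) : ℝ) with hpdef
  have hcont : Continuous φ := hφ.continuous
  have hzero : ∀ k : ℕ, 3 ≤ k → (p k fun _ => 1) = 0 := by
    intro k hk
    have hbd : ∀ R : ℝ, 1 ≤ R → ‖p k fun _ => 1‖ ≤ 4 * |A| / R := by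
      intro R hR
      have hR0 : (0:ℝ) < R := by linarith
      have hq : HasFPowerSeriesOnBall φ (cauchyPowerSeries φ 0 ((⟨R, hR0.le⟩ : NNReal) : ℝ)) 0 ⊤ :=
        hφ.hasFPowerSeriesOnBall (R := ⟨R, hR0.le⟩) 0 hR0
      have heq : p = cauchyPowerSeries φ 0 R :=
        hp.hasFPowerSeriesAt.eq_formalMultilinearSeries hq.hasFPowerSeriesAt
      have hsph : ∀ z ∈ sphere (0 : ℂ) |R|, z ≠ 0 := by
        rintro z hz rfl
        rw [mem_sphere_zero_iff_norm, norm_zero] at hz
        rw [eq_comm, abs_eq_zero] at hz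
        exact hR0.ne' hz
      have hi1 : CircleIntegrable (fun z => (z⁻¹) ^ k * φ z) 0 R := by
        apply ContinuousOn.circleIntegrable'
        exact ((continuousOn_id.inv₀ hsph).pow k).mul hcont.continuousOn
      have hi2 : CircleIntegrable (fun z => (z⁻¹) ^ k * (starRingEnd ℂ) (φ z)) 0 R := by
        apply ContinuousOn.circleIntegrable'
        exact ((continuousOn_id.inv₀ hsph).pow k).mul (Complex.continuous_conj.comp hcont).continuousOn
      have h1 : Real.circleAverage (fun z => (z⁻¹) ^ k * φ z) 0 R =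
          Real.circleAverage (fun z => (z⁻¹) ^ k * φ z + (z⁻¹) ^ k * (starRingEnd ℂ) (φ z)) 0 R := by
        rw [Real.circleAverage_fun_add hi1 hi2, average_conj hφ hR0 (by omega), add_zero]
      have h2 : Real.circleAverage (fun z => ‖(z⁻¹) ^ k * φ z + (z⁻¹) ^ k * (starRingEnd ℂ) (φ z)‖) 0 R =
          (2 * (R⁻¹) ^ k) * Real.circleAverage (fun z => |(φ z).re|) 0 R := by
        have h3 := Real.circleAverage_fun_smul (a := (2 * (R⁻¹) ^ k : ℝ)) (f := fun z => |(φ z).re|) (c := 0) (R := R)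
        simp only [smul_eq_mul] at h3
        rw [← h3]
        apply Real.circleAverage_congr_sphere
        intro z hz
        rw [abs_of_pos hR0, mem_sphere_zero_iff_norm] at hz
        simp only
        rw [← mul_add, Complex.add_conj, norm_mul, norm_pow, norm_inv, hz]
        rw [show ((2 * (φ z).re : ℝ) : ℂ) = ((2 * (φ z).re : ℝ) : ℂ) from rfl, Complex.norm_real, Real.norm_eq_abs, abs_mul, abs_two]
        ring
      rw [heq, coeff_eq hR0.ne', h1]
      refine norm_circleAverage_le.trans ?_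
      rw [h2]
      have h4 := hA R hR
      have h5 : (R⁻¹) ^ k ≤ (R⁻¹) ^ 3 := pow_le_pow_of_le_one (by positivity) (inv_le_one_of_one_le₀ hR) hk
      have h6 : A * (1 + R ^ 2) ≤ |A| * (2 * R ^ 2) := by
        have h9 : (1:ℝ) + R ^ 2 ≤ 2 * R ^ 2 := by nlinarith
        calc A * (1 + R ^ 2) ≤ |A| * (1 + R ^ 2) := mul_le_mul_of_nonneg_right (le_abs_self A) (by positivity)
          _ ≤ |A| * (2 * R ^ 2) := mul_le_mul_of_nonneg_left h9 (abs_nonneg A)
      calc (2 * (R⁻¹) ^ k) * Real.circleAverage (fun z => |(φ z).re|) 0 R ≤ (2 * (R⁻¹) ^ k) * (|A| * (2 * R ^ 2)) :=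
            mul_le_mul_of_nonneg_left (h4.trans h6) (by positivity)
        _ ≤ (2 * (R⁻¹) ^ 3) * (|A| * (2 * R ^ 2)) := by
            apply mul_le_mul_of_nonneg_right _ (by positivity)
            linarith
        _ = 4 * |A| / R := by
            field_simp
            ring
    have h0 : ‖p k fun _ => 1‖ ≤ 0 := by
      have ht : Tendsto (fun R : ℝ => 4 * |A| / R) atTop (𝓝 0) := tendsto_const_nhds.div_atTop tendsto_id
      exact ge_of_tendsto ht ((eventually_ge_atTop 1).mono fun R hR => hbd R hR)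
    exact norm_le_zero_iff.mp h0
  have happ : ∀ (n : ℕ) (z : ℂ), (p n fun _ => z) = z ^ n * (p n fun _ => 1) := by
    intro n z
    have := (p n).map_smul_univ (fun _ => z) (fun _ => (1:ℂ))
    simp only [smul_eq_mul, mul_one, Finset.prod_const, Finset.card_univ, Fintype.card_fin] at this
    exact this
  refine ⟨p 2 fun _ => 1, p 1 fun _ => 1, p 0 fun _ => 1, fun z => ?_⟩
  have hs := hp.hasSum (y := z) (by simp)
  rw [zero_add] at hs
  have hs2 : HasSum (fun n : ℕ => p n fun _ => z) (∑ n ∈ Finset.range 3, p n fun _ => z) := by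
    apply hasSum_sum_of_ne_finset_zero
    intro n hn
    have : 3 ≤ n := by
      rw [Finset.mem_range, not_lt] at hn
      exact hn
    rw [happ, hzero n this, mul_zero]
  rw [hs.unique hs2, Finset.sum_range_succ, Finset.sum_range_succ, Finset.sum_range_one, happ 0, happ 1, happ 2]
  ring

end Pool.Agent.H13.LU
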